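import Mathlib
import Pool.Agent.H.MP_41ff45_gt.Main

set_option autoImplicit false

namespace Pool.Agent.Results.MP_41ff45_gt.Counter

open Set

def KC {X : Type} [TopologicalSpace X] (𝒰 : Set (Set X)) : Prop :=
  (∀ U ∈ 𝒰, IsOpen U) ∧ ⋃₀ 𝒰 = univ ∧ ∀ K, IsCompact K → ∃ U ∈ 𝒰, K ⊆ U

def MarkovFin (X : Type) [TopologicalSpace X] : Prop :=
  ∃ σ : Set (Set X) → ℕ → Set (Set X), (∀ 𝒰 n, KC 𝒰 → (σ 𝒰 n).Finite ∧ σ 𝒰 n ⊆ 𝒰) ∧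
    ∀ 𝒰 : ℕ → Set (Set X), (∀ n, KC (𝒰 n)) → KC (⋃ n, σ (𝒰 n) n)

def MarkovOne (X : Type) [TopologicalSpace X] : Prop :=
  ∃ σ : Set (Set X) → ℕ → Set X, (∀ 𝒰 n, KC 𝒰 → σ 𝒰 n ∈ 𝒰) ∧
    ∀ 𝒰 : ℕ → Set (Set X), (∀ n, KC (𝒰 n)) → KC (range fun n => σ (𝒰 n) n)

theorem result : ∃ (X : Type) (_ : TopologicalSpace X),
    T1Space X ∧ MarkovFin X ∧ ¬ MarkovOne X :=
  ⟨Pool.Agent.H.MP_41ff45_gt.X, inferInstance, inferInstance, Pool.Agent.H.MP_41ff45_gt.markov,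
    fun ⟨_, h1, h2⟩ => Pool.Agent.H.MP_41ff45_gt.not_roth.elim fun 𝒰 h =>
      h.2 _ (fun n => h1 _ n (h.1 n)) (h2 𝒰 h.1)⟩

end Pool.Agent.Results.MP_41ff45_gt.Counter
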